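import Pool.Agent.W622.ETC.Stm

/-! Project ELT (helper622), part PL: primal linkage. -/

set_option autoImplicit false

namespace Pool.Agent.W639.ELT

open Pool.Agent.W622.ETC Module

variable {V : Type} [AddCommGroup V] [Module (ZMod 2) V]

/-- `K_a` is the annihilator of `i_a A` -/
theorem mem_ia [Finite V] (A : Fam V) (a : V) (f : Dl V)
    (h : ∀ y : V, (∀ ω ∈ A, ω a y = 0) → f y = 0) : ∃ ω ∈ A, ω a = f := by
  have h1 : f ∈ Submodule.map (LinearMap.applyₗ (R := ZMod 2) a : Frm V →ₗ[ZMod 2] Dl V) A := by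
    refine mem_of_coann fun b hb => h b fun ω hω => ?_
    exact hb (ω a) ⟨ω, hω, rfl⟩
  obtain ⟨ω, hω, h2⟩ := h1
  exact ⟨ω, hω, h2⟩

theorem dl2 (A : Fam V) (hL : Linked A) {a c : V} {ω₁ ω₂ ω₃ : Frm V} (h1 : ω₁ ∈ A) (h2 : ω₂ ∈ A)
    (h3 : ω₃ ∈ A) (h : ω₁ a + ω₂ c = ω₃ (a + c)) : ∃ ω ∈ A, ω a = ω₁ a ∧ ω c = ω₂ c := by
  have h4 : (ω₁ + ω₃) a = (ω₂ + ω₃) c := by
    rw [← Pool.Agent.W622.ETC.add_eq_zero', LinearMap.add_apply, LinearMap.add_apply]
    rw [map_add] at h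
    have : ω₁ a + ω₃ a + (ω₂ c + ω₃ c) = (ω₁ a + ω₂ c) + (ω₃ a + ω₃ c) := by abel
    rw [this, h, vadd]
  obtain ⟨ζ, hζ, h5, h6⟩ := hL _ (A.add_mem h1 h3) _ (A.add_mem h2 h3) a c h4
  refine ⟨ζ + ω₃, A.add_mem hζ h3, ?_, ?_⟩
  · rw [LinearMap.add_apply, h5, LinearMap.add_apply, add_cancel']
  · rw [LinearMap.add_apply, h6, h4, LinearMap.add_apply, add_cancel']

/-- the subspace `K_a × 0 + 0 × K_c + Δ K_(a+c)` -/
def NN (A : Fam V) (a c : V) : Submodule (ZMod 2) (V × V) where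
  carrier := {p | ∃ z : V, (∀ ω ∈ A, ω a (p.1 + z) = 0) ∧ (∀ ω ∈ A, ω c (p.2 + z) = 0) ∧
    (∀ ω ∈ A, ω (a + c) z = 0)}
  add_mem' := by
    rintro ⟨x, y⟩ ⟨x', y'⟩ ⟨z, h1, h2, h3⟩ ⟨z', h1', h2', h3'⟩
    refine ⟨z + z', fun ω hω => ?_, fun ω hω => ?_, fun ω hω => ?_⟩
    · have : ((x, y) + (x', y') : V × V).1 + (z + z') = (x + z) + (x' + z') := by
        show x + x' + (z + z') = _
        abel
      rw [this, map_add, h1 ω hω, h1' ω hω, add_zero]
    · have : ((x, y) + (x', y') : V × V).2 + (z + z') = (y + z) + (y' + z') := by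
        show y + y' + (z + z') = _
        abel
      rw [this, map_add, h2 ω hω, h2' ω hω, add_zero]
    · rw [map_add, h3 ω hω, h3' ω hω, add_zero]
  zero_mem' := ⟨0, fun ω _ => by simp, fun ω _ => by simp, fun ω _ => by simp⟩
  smul_mem' := by
    rintro t ⟨x, y⟩ ⟨z, h1, h2, h3⟩
    refine ⟨t • z, fun ω hω => ?_, fun ω hω => ?_, fun ω hω => ?_⟩
    · have : (t • (x, y) : V × V).1 + t • z = t • (x + z) := by
        rw [smul_add]
        rfl
      rw [this, map_smul, h1 ω hω, smul_zero]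
    · have : (t • (x, y) : V × V).2 + t • z = t • (y + z) := by
        rw [smul_add]
        rfl
      rw [this, map_smul, h2 ω hω, smul_zero]
    · rw [map_smul, h3 ω hω, smul_zero]

theorem t_PL : S_PL := by
  intro V _ _ _ A _ hL a c u v huv
  by_contra hcon
  have hnot : (u, v) ∉ NN A a c := hcon
  obtain ⟨φ, h1, h2⟩ := Submodule.exists_dual_map_eq_bot_of_notMem hnot inferInstance
  have hφ : ∀ p ∈ NN A a c, φ p = 0 := by
    intro p hp
    have : φ p ∈ Submodule.map φ (NN A a c) := ⟨p, hp, rfl⟩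
    rw [h2] at this
    exact this
  set f : Dl V := φ.comp (LinearMap.inl (ZMod 2) V V) with hf
  set g : Dl V := φ.comp (LinearMap.inr (ZMod 2) V V) with hg
  have hfg : ∀ x y, φ (x, y) = f x + g y := by
    intro x y
    rw [hf, hg, LinearMap.comp_apply, LinearMap.comp_apply, ← map_add]
    simp
  obtain ⟨ω₁, k1, e1⟩ := mem_ia A a f fun y hy => by
    have := hφ (y, 0) ⟨0, fun ω hω => by simpa using hy ω hω, fun ω _ => by simp, fun ω _ => by simp⟩
    rw [hfg] at this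
    simpa using this
  obtain ⟨ω₂, k2, e2⟩ := mem_ia A c g fun y hy => by
    have := hφ (0, y) ⟨0, fun ω _ => by simp, fun ω hω => by simpa using hy ω hω, fun ω _ => by simp⟩
    rw [hfg] at this
    simpa using this
  obtain ⟨ω₃, k3, e3⟩ := mem_ia A (a + c) (f + g) fun y hy => by
    have := hφ (y, y) ⟨y, fun ω _ => by rw [vadd, map_zero], fun ω _ => by rw [vadd, map_zero], hy⟩
    rw [hfg] at this
    exact this
  obtain ⟨ω, hω, h3, h4⟩ := dl2 A hL k1 k2 k3 (by rw [e1, e2, e3])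
  apply h1
  rw [hfg, ← e1, ← e2, ← h3, ← h4, huv ω hω, zadd]

end Pool.Agent.W639.ELT
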